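import Mathlib
import Pool.Agent.H544.EQ.G5

/-!
# Long strings of prime values of `x² + x + A` along arithmetic progressions, for almost all `A`

Let `f_A(x) = x² + x + A`. The problem asks for `A` with `f_A(1), …, f_A(B)` prime. Here the arguments `1, …, B` are replaced by
progressions `n, n + D, …, n + B D`: for 100 percent of the odd `|A| ≤ C`, `N^(2/3+ε) ≤ C ≤ N`, there are many `D` and for each of
them `≫ N (log log N)^B / (log N)^(B+1)` numbers `n ≤ N` such that all the values `f_A(n), f_A(n + D), …, f_A(n + B D)` are prime (the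
order predicted by the conjecture of Bateman and Horn). The values are as large as `N²`, that is `A^(3-ε')`.

This is a special case of Szemerédi's theorem for the prime values of almost all quadratic polynomials. Let `a > 0` be fixed and
`f(m) = a m² + b m + c`. For 100 percent of the pairs of integers `|b|, |c| ≤ H` and every `N` with
`H² ≤ N ≤ H^(3-ε)` (and for 100 percent of the `|c| ≤ C`, `N^(2/3+ε) ≤ C ≤ N`, if `b` is fixed too) let `P` be the set of the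
arguments `m ≤ N` for which `f(m)` is prime. Then `P` has at least the expected order of magnitude of elements, and EVERY
subset `T` of `P` of positive relative density contains constellations of EVERY shape: for all distinct
`1 ≤ b_1, …, b_r ≤ N^(1-δ)` there are at least `γ N^(δ/8)` of the `d ≤ N^(δ/8)` such that with `D = W d`, `W` the product
of the primes up to `(δ/8) log N`, at least `γ N (log log N)^r / (log N)^(r+1)` of the `n` have
`n, n + D b_1, …, n + D b_r` in `T`.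

Proof. The lower bound for the number of prime values is a theorem of helper568 (`Pool.Agent.H568`, after the library modules
`N792`, `N791`). The engine for dense subsets of sifted sets, uniform in the polynomials, is that of helper534
(`Pool.Agent.H534.RT.uniP`). What is new here is the connection: the comparison of the product of the local factors up to `N`
and up to `(δ/8) log N` with the conditionally convergent constant of Hardy and Littlewood, for almost all pairs, and its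
invariance under the translations of the argument (files `G1` to `G5` of `Pool.Agent.H544.EQ`).
-/

set_option autoImplicit false

namespace Pool.Agent.Results.MP_c6d19f_nt.StringsAlongProgressions

open Finset Filter Topology

/-- the triple `(a, b, c)` is admissible -/
def Admissible (a b c : ℤ) : Prop :=
  0 < a ∧ (∀ d : ℤ, d ∣ a → d ∣ b → d ∣ c → IsUnit d) ∧ ¬ ((2 : ℤ) ∣ a + b ∧ (2 : ℤ) ∣ c) ∧
    ¬ IsSquare (b ^ 2 - 4 * a * c)

/-- `2` if `a + b` is even and `1` if `a + b` is odd -/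
noncomputable def eps (a b : ℤ) : ℝ := if (2 : ℤ) ∣ a + b then 2 else 1

/-- the product `∏_{p > 2, p ∣ gcd(a, b)} p / (p - 1)` -/
noncomputable def gcdProd (a b : ℤ) : ℝ :=
  ∏ p ∈ (Int.gcd a b).primeFactors.filter (fun p => 2 < p), (p : ℝ) / (p - 1)

/-- the product `∏_{2 < p ≤ z, p ∤ a} (1 - (D / p) / (p - 1))`, where `D = b² - 4 a c` -/
noncomputable def partialC (a b c : ℤ) (z : ℕ) : ℝ :=
  ∏ p ∈ (Icc 3 z).filter (fun p : ℕ => p.Prime ∧ ¬ (p : ℤ) ∣ a),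
    (1 - (jacobiSym (b ^ 2 - 4 * a * c) p : ℝ) / (p - 1))

/-- the set of the arguments `1 ≤ m ≤ N` for which `a m² + b m + c` is a prime -/
def primeArguments (a b c : ℤ) (N : ℕ) : Finset ℕ :=
  (Ioc 0 N).filter (fun m : ℕ => (a * (m : ℤ) ^ 2 + b * m + c).toNat.Prime)

/-- the number of the `n` for which `n` and all `n + D b_1, …, n + D b_r` are elements of `T` -/
def copies {r : ℕ} (T : Finset ℕ) (D : ℕ) (b : Fin r → ℕ) : ℕ :=
  #(T.filter (fun n => ∀ l, n + D * b l ∈ T))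

/-- Every subset `T` of `P ⊆ [1, N]` with at least `κ |P|` elements contains constellations of every shape: for all distinct
`1 ≤ b_1, …, b_r ≤ N^(1-δ)` at least `γ N^(δ/8)` of the `d ≤ N^(δ/8)` have the property that with `D = W d`, `W` the product
of the primes up to `(δ/8) log N`, at least `γ N (log log N)^r / (log N)^(r+1)` of the `n` have
`n, n + D b_1, …, n + D b_r ∈ T`. -/
def EveryShape (r : ℕ) (κ δ γ : ℝ) (N : ℕ) (P : Finset ℕ) : Prop :=
  ∀ T ⊆ P, κ * #P ≤ (#T : ℝ) → ∀ b : Fin r → ℕ, Function.Injective b → (∀ l, 1 ≤ b l ∧ (b l : ℝ) ≤ (N : ℝ) ^ (1 - δ)) →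
    ∃ S : Finset ℕ, γ * (N : ℝ) ^ (δ / 8) ≤ (#S : ℝ) ∧ ∀ d ∈ S, 1 ≤ d ∧ (d : ℝ) ≤ (N : ℝ) ^ (δ / 8) ∧
      γ * (N * Real.log (Real.log N) ^ r / Real.log N ^ (r + 1)) ≤
        (copies T (primorial ⌊δ / 8 * Real.log N⌋₊ * d) b : ℝ)

/-- The product `C(a, b, c)` converges to a number `S > 0`, the constant `M = eps(a, b) S ∏_{p > 2, p ∣ gcd(a, b)} p / (p - 1)`
is at least `θ`, the number of the `m ≤ N` for which `a m² + b m + c` is prime is at least `(1/5) M N / log N` (the conjecture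
predicts `(1/2) M N / log N`), and the set of these `m` has the property `EveryShape`. -/
def Rich (r : ℕ) (κ δ θ γ : ℝ) (N : ℕ) (a b c : ℤ) : Prop :=
  ∃ S : ℝ, 0 < S ∧ Tendsto (fun z => partialC a b c z) atTop (𝓝 S) ∧ θ ≤ eps a b * S * gcdProd a b ∧
    1 / 5 * (eps a b * S * gcdProd a b * N / Real.log N) ≤ (#(primeArguments a b c N) : ℝ) ∧
    EveryShape r κ δ γ N (primeArguments a b c N)

lemma rich_of {r : ℕ} {κ δ θ γ : ℝ} {N : ℕ} {a b c : ℤ} (hκ : 0 < κ) (hθ : 0 < θ) (hγ : 0 < γ) (hN : 1 ≤ Real.log N)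
    (h : Pool.Agent.H544.EQ.Concl a r (κ / 5) δ θ γ N b c) : Rich r κ δ θ (min γ (γ * θ)) N a b c := by
  obtain ⟨S, s1, s2, s3, s4, s5⟩ := h
  have hL : 0 < Real.log N := by linarith
  have hl : 0 ≤ Real.log (Real.log N) := Real.log_nonneg hN
  refine ⟨S, s1, s2, s3, s4, fun T hT hTc bb hbb hb => ?_⟩
  change κ * (#(Pool.Agent.H544.EQ.PP a b c N) : ℝ) ≤ _ at hTc
  have hM : θ ≤ Pool.Agent.N792.eps a b * S * Pool.Agent.N792.gcdProd a b := s3
  obtain ⟨D', d1, d2⟩ := s5 T hT (by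
    refine le_trans ?_ hTc
    calc κ / 5 * (Pool.Agent.N792.eps a b * S * Pool.Agent.N792.gcdProd a b * N / Real.log N) =
        κ * (1 / 5 * (Pool.Agent.N792.eps a b * S * Pool.Agent.N792.gcdProd a b * N / Real.log N)) := by ring
      _ ≤ κ * (#(Pool.Agent.H544.EQ.PP a b c N) : ℝ) := mul_le_mul_of_nonneg_left s4 hκ.le) bb hbb (fun l => (hb l).1) (fun l => (hb l).2)
  refine ⟨D', le_trans (mul_le_mul_of_nonneg_right (min_le_left _ _) (by positivity)) d1, fun d hd => ?_⟩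
  obtain ⟨e1, e2, e3⟩ := d2 d hd
  refine ⟨e1, e2, ?_⟩
  have e4 : (copies T (primorial ⌊δ / 8 * Real.log N⌋₊ * d) bb : ℝ) =
      (#(T.filter (fun n => ∀ l, n + primorial ⌊δ / 8 * Real.log N⌋₊ * (bb l * d) ∈ T)) : ℝ) := by
    unfold copies
    have : ∀ l, primorial ⌊δ / 8 * Real.log N⌋₊ * d * bb l = primorial ⌊δ / 8 * Real.log N⌋₊ * (bb l * d) := fun l => by ring
    simp only [this]
  rw [e4]
  refine le_trans ?_ e3
  have hN0 : (0 : ℝ) ≤ N := Nat.cast_nonneg _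
  have hX : 0 ≤ N * Real.log (Real.log N) ^ r / Real.log N ^ (r + 1) := by positivity
  calc min γ (γ * θ) * (N * Real.log (Real.log N) ^ r / Real.log N ^ (r + 1)) ≤
      γ * θ * (N * Real.log (Real.log N) ^ r / Real.log N ^ (r + 1)) := mul_le_mul_of_nonneg_right (min_le_right _ _) hX
    _ ≤ γ * (Pool.Agent.N792.eps a b * S * Pool.Agent.N792.gcdProd a b) * (N * Real.log (Real.log N) ^ r / Real.log N ^ (r + 1)) := by
        apply mul_le_mul_of_nonneg_right _ hX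
        exact mul_le_mul_of_nonneg_left hM hγ.le
    _ = γ * (Real.log (Real.log N) / Real.log N) ^ r * (Pool.Agent.N792.eps a b * S * Pool.Agent.N792.gcdProd a b * N / Real.log N) := by
        rw [div_pow, pow_succ]
        field_simp

/-- The theorem for general quadratic polynomials. Let `a > 0`, `r ≥ 1` and `ε, η, κ > 0`, `0 < δ ≤ 1`.
(1) For every `b` there are `θ, γ > 0` and `N₀` such that for `N ≥ N₀` and `N^(2/3+ε) ≤ C ≤ N` all but at most `η C` of the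
integers `|c| ≤ C` with `(a, b, c)` admissible have the property `Rich`.
(2) There are `θ, γ > 0` and `H₀` such that for `H ≥ H₀` and `H² ≤ N ≤ H^(3-ε)` all but at most `η H²` of the pairs `(b, c)` of
integers with `|b|, |c| ≤ H` and `(a, b, c)` admissible have the property `Rich`. -/
theorem general (a : ℤ) (ha : 0 < a) (r : ℕ) (hr : 1 ≤ r) (ε η κ δ : ℝ) (hε : 0 < ε) (hη : 0 < η) (hκ : 0 < κ)
    (hδ : 0 < δ) (hδ1 : δ ≤ 1) :
    (∀ b : ℤ, ∃ θ γ : ℝ, 0 < θ ∧ 0 < γ ∧ ∃ N₀ : ℕ, ∀ N : ℕ, N₀ ≤ N → ∀ C : ℕ, (N : ℝ) ^ (2 / 3 + ε) ≤ C → C ≤ N →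
      ∃ Ex ⊆ Icc (-(C : ℤ)) C, (#Ex : ℝ) ≤ η * C ∧
        ∀ c ∈ Icc (-(C : ℤ)) C, c ∉ Ex → Admissible a b c → Rich r κ δ θ γ N a b c) ∧
    (∃ θ γ : ℝ, 0 < θ ∧ 0 < γ ∧ ∃ H₀ : ℕ, ∀ H : ℕ, H₀ ≤ H → ∀ N : ℕ, H ^ 2 ≤ N → (N : ℝ) ≤ (H : ℝ) ^ (3 - ε) →
      ∃ Ex ⊆ Icc (-(H : ℤ)) H ×ˢ Icc (-(H : ℤ)) H, (#Ex : ℝ) ≤ η * H ^ 2 ∧
        ∀ q ∈ Icc (-(H : ℤ)) H ×ˢ Icc (-(H : ℤ)) H, q ∉ Ex → Admissible a q.1 q.2 → Rich r κ δ θ γ N a q.1 q.2) := by
  obtain ⟨n1, h1⟩ := Pool.Agent.H373R2.T7.ev_L' 1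
  constructor
  · intro b
    obtain ⟨θ, γ, hθ, hγ, N0, h⟩ := Pool.Agent.H544.EQ.one_par a ha b r hr ε η (κ / 5) δ hε hη (by positivity) hδ hδ1
    refine ⟨θ, min γ (γ * θ), hθ, lt_min hγ (by positivity), max N0 n1, fun N hN C hC1 hC2 => ?_⟩
    obtain ⟨Ex, e1, e2, e3⟩ := h N ((le_max_left _ _).trans hN) C hC1 hC2
    exact ⟨Ex, e1, e2, fun c hc hcE hadm => rich_of hκ hθ hγ (h1 N ((le_max_right _ _).trans hN)) (e3 c hc hcE hadm)⟩
  · obtain ⟨θ, γ, hθ, hγ, H0, h⟩ := Pool.Agent.H544.EQ.quad a ha r hr ε η (κ / 5) δ hε hη (by positivity) hδ hδ1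
    refine ⟨θ, min γ (γ * θ), hθ, lt_min hγ (by positivity), max H0 n1, fun H hH N hN1 hN2 => ?_⟩
    obtain ⟨Ex, e1, e2, e3⟩ := h H ((le_max_left _ _).trans hH) N hN1 hN2
    have hHN : n1 ≤ N := by
      have : n1 ≤ H := (le_max_right _ _).trans hH
      nlinarith
    exact ⟨Ex, e1, e2, fun q hq hqE hadm => rich_of hκ hθ hγ (h1 N hHN) (e3 q hq hqE hadm)⟩

/-- for odd `A` the triple of `x² + x + A` is admissible -/
lemma admissible_odd {A : ℤ} (hA : Odd A) : Admissible 1 1 A := by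
  refine ⟨by norm_num, fun d hd _ _ => isUnit_of_dvd_one hd, ?_, ?_⟩
  · rintro ⟨-, h⟩
    obtain ⟨k, hk⟩ := hA
    omega
  · rintro ⟨m, hm⟩
    obtain ⟨k, hk⟩ := hA
    rcases Int.even_or_odd m with ⟨t, ht⟩ | ⟨t, ht⟩
    · have : (1 : ℤ) - 4 * A = 4 * (t * t) := by
        have h1 : (1 : ℤ) ^ 2 - 4 * 1 * A = m * m := hm
        rw [ht] at h1
        linarith
      omega
    · have h1 : (1 : ℤ) ^ 2 - 4 * 1 * A = m * m := hm
      rw [ht, hk] at h1
      have h2 : 4 * (t * (t + 1)) = -(4 * (2 * k + 1)) := by linarith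
      have h3 : t * (t + 1) = -(2 * k + 1) := by linarith
      obtain ⟨u, hu⟩ := Int.even_mul_succ_self t
      omega

/-- the property of `A` in the theorem: for at least `γ N^(1/16)` of the `d ≤ N^(1/16)` one has with `D = W d`, `W` the product of
the primes up to `(1/16) log N`: for at least `γ N (log log N)^B / (log N)^(B+1)` of the `n ≤ N` all the numbers `f_A(n + D x)`,
`0 ≤ x ≤ B`, are prime (and `n + D B ≤ N`) -/
def Strings (B : ℕ) (γ : ℝ) (N : ℕ) (A : ℤ) : Prop :=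
  ∃ S : Finset ℕ, γ * (N : ℝ) ^ (1 / 16 : ℝ) ≤ (#S : ℝ) ∧ ∀ d ∈ S, 1 ≤ d ∧ (d : ℝ) ≤ (N : ℝ) ^ (1 / 16 : ℝ) ∧
    ∀ D : ℕ, D = primorial ⌊1 / 16 * Real.log N⌋₊ * d →
      γ * (N * Real.log (Real.log N) ^ B / Real.log N ^ (B + 1)) ≤
        (#((Ioc 0 N).filter (fun n : ℕ => n + D * B ≤ N ∧
          ∀ x : ℕ, x ≤ B → (((n + D * x : ℕ) : ℤ) ^ 2 + ((n + D * x : ℕ) : ℤ) + A).toNat.Prime)) : ℝ)

theorem strings_of {B : ℕ} (hB : 1 ≤ B) {θ γ : ℝ} {N : ℕ} {A : ℤ} (hN : (B : ℝ) ≤ (N : ℝ) ^ (1 - 1 / 2 : ℝ))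
    (h : Rich B 1 (1 / 2) θ γ N 1 1 A) : Strings B γ N A := by
  obtain ⟨_, _, _, _, _, h5⟩ := h
  obtain ⟨S, s1, s2⟩ := h5 (primeArguments 1 1 A N) subset_rfl (by rw [one_mul]) (fun l : Fin B => (l : ℕ) + 1)
    (fun x y hxy => Fin.ext (by simpa using hxy)) (fun l => ⟨by omega, by
      refine le_trans ?_ hN
      have : (l : ℕ) + 1 ≤ B := l.2
      exact_mod_cast this⟩)
  have e0 : (1 / 2 / 8 : ℝ) = 1 / 16 := by norm_num
  rw [e0] at s1 s2
  refine ⟨S, s1, fun d hd => ?_⟩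
  obtain ⟨t1, t2, t3⟩ := s2 d hd
  refine ⟨t1, t2, fun D hD => t3.trans ?_⟩
  rw [← hD]
  refine Nat.cast_le.2 (card_le_card ?_)
  intro n hn
  rw [mem_filter] at hn
  obtain ⟨n1, n2⟩ := hn
  have key : ∀ x : ℕ, x ≤ B → n + D * x ∈ primeArguments 1 1 A N := by
    intro x hx
    rcases Nat.eq_zero_or_pos x with h0 | h0
    · rw [h0, mul_zero, add_zero]
      exact n1
    · have h1 := n2 ⟨x - 1, by omega⟩
      have e : x - 1 + 1 = x := by omega
      simp only [e] at h1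
      exact h1
  have hn1 : n ∈ primeArguments 1 1 A N := n1
  unfold primeArguments at hn1
  rw [mem_filter] at hn1
  rw [mem_filter]
  refine ⟨hn1.1, ?_, fun x hx => ?_⟩
  · have h2 := key B le_rfl
    unfold primeArguments at h2
    rw [mem_filter, mem_Ioc] at h2
    exact h2.1.2
  · have h2 := key x hx
    unfold primeArguments at h2
    rw [mem_filter] at h2
    have h3 := h2.2
    have e : (1 : ℤ) * ((n + D * x : ℕ) : ℤ) ^ 2 + 1 * ((n + D * x : ℕ) : ℤ) + A =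
        ((n + D * x : ℕ) : ℤ) ^ 2 + ((n + D * x : ℕ) : ℤ) + A := by ring
    rw [e] at h3
    exact h3

/-- **Long strings of prime values of `x² + x + A` along arithmetic progressions, for almost all odd `A`, and constellations of
every shape in dense subsets of the prime values of almost all quadratic polynomials.**
(1) For every `B ≥ 1` and `ε, η > 0` there are `γ > 0` and `N₀` such that for `N ≥ N₀` and `N^(2/3+ε) ≤ C ≤ N` all but at most
`η C` of the odd `|A| ≤ C` have the property `Strings`: for many `D` there are at least `γ N (log log N)^B / (log N)^(B+1)` numbers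
`n ≤ N` such that `f_A(n + D x)` is prime for all `0 ≤ x ≤ B`, `f_A(x) = x² + x + A`.
(2) Let `a > 0`, `r ≥ 1` and `ε, η, κ > 0`, `0 < δ ≤ 1`. For every `b` there are `θ, γ > 0` and `N₀` such that for `N ≥ N₀` and
`N^(2/3+ε) ≤ C ≤ N` all but at most `η C` of the integers `|c| ≤ C` with `(a, b, c)` admissible have the property `Rich`. There are
`θ, γ > 0` and `H₀` such that for `H ≥ H₀` and `H² ≤ N ≤ H^(3-ε)` all but at most `η H²` of the pairs `(b, c)` of integers with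
`|b|, |c| ≤ H` and `(a, b, c)` admissible have the property `Rich`. -/
theorem result :
    (∀ B : ℕ, 1 ≤ B → ∀ ε η : ℝ, 0 < ε → 0 < η → ∃ γ : ℝ, 0 < γ ∧ ∃ N₀ : ℕ, ∀ N : ℕ, N₀ ≤ N →
      ∀ C : ℕ, (N : ℝ) ^ (2 / 3 + ε) ≤ C → C ≤ N →
        ∃ Ex ⊆ Icc (-(C : ℤ)) C, (#Ex : ℝ) ≤ η * C ∧
          ∀ A ∈ Icc (-(C : ℤ)) C, A ∉ Ex → Odd A → Strings B γ N A) ∧
    ∀ (a : ℤ), 0 < a → ∀ (r : ℕ), 1 ≤ r → ∀ (ε η κ δ : ℝ), 0 < ε → 0 < η → 0 < κ → 0 < δ → δ ≤ 1 →
      (∀ b : ℤ, ∃ θ γ : ℝ, 0 < θ ∧ 0 < γ ∧ ∃ N₀ : ℕ, ∀ N : ℕ, N₀ ≤ N → ∀ C : ℕ, (N : ℝ) ^ (2 / 3 + ε) ≤ C → C ≤ N →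
        ∃ Ex ⊆ Icc (-(C : ℤ)) C, (#Ex : ℝ) ≤ η * C ∧
          ∀ c ∈ Icc (-(C : ℤ)) C, c ∉ Ex → Admissible a b c → Rich r κ δ θ γ N a b c) ∧
      (∃ θ γ : ℝ, 0 < θ ∧ 0 < γ ∧ ∃ H₀ : ℕ, ∀ H : ℕ, H₀ ≤ H → ∀ N : ℕ, H ^ 2 ≤ N → (N : ℝ) ≤ (H : ℝ) ^ (3 - ε) →
        ∃ Ex ⊆ Icc (-(H : ℤ)) H ×ˢ Icc (-(H : ℤ)) H, (#Ex : ℝ) ≤ η * H ^ 2 ∧
          ∀ q ∈ Icc (-(H : ℤ)) H ×ˢ Icc (-(H : ℤ)) H, q ∉ Ex → Admissible a q.1 q.2 → Rich r κ δ θ γ N a q.1 q.2) := by
  refine ⟨fun B hB ε η hε hη => ?_, fun a ha r hr ε η κ δ hε hη hκ hδ hδ1 => general a ha r hr ε η κ δ hε hη hκ hδ hδ1⟩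
  obtain ⟨θ, γ, hθ, hγ, N₀, h⟩ := (general 1 one_pos B hB ε η 1 (1 / 2) hε hη one_pos (by norm_num) (by norm_num)).1 1
  have ht : Tendsto (fun N : ℕ => (N : ℝ) ^ (1 - 1 / 2 : ℝ)) atTop atTop :=
    (tendsto_rpow_atTop (by norm_num)).comp tendsto_natCast_atTop_atTop
  obtain ⟨N₁, hN₁⟩ := eventually_atTop.1 (ht.eventually_ge_atTop (B : ℝ))
  refine ⟨γ, hγ, max N₀ N₁, fun N hN C hC1 hC2 => ?_⟩
  obtain ⟨Ex, e1, e2, e3⟩ := h N ((le_max_left _ _).trans hN) C hC1 hC2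
  exact ⟨Ex, e1, e2, fun A hA hAE hodd => strings_of hB (hN₁ N ((le_max_right _ _).trans hN)) (e3 A hA hAE (admissible_odd hodd))⟩

end Pool.Agent.Results.MP_c6d19f_nt.StringsAlongProgressions
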